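import Mathlib

/-!
# The binary matroid on nine elements which refutes the common basis statement for `k = 2`

`AG(3,2)` minus a point `p`, together with two elements `e`, `f` with `e + f = p`, one of them
parallel to a point.
-/

set_option autoImplicit false

namespace Pool.Agent.Helper41.CB

/-- The nine vectors of `F_2^4`. -/
def v : Fin 9 → (Fin 4 → ZMod 2) :=
  ![![1, 0, 0, 1], ![1, 0, 1, 0], ![1, 0, 1, 1], ![1, 1, 0, 0], ![1, 1, 0, 1], ![1, 1, 1, 0],
    ![1, 1, 1, 1], ![0, 1, 1, 1], ![1, 1, 1, 1]]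

theorem aug {ι K V : Type} [DecidableEq ι] [Field K] [AddCommGroup V] [Module K V] (w : ι → V)
    (I J : Finset ι) (hI : LinearIndepOn K w (I : Set ι)) (hJ : LinearIndepOn K w (J : Set ι))
    (hIJ : I.card < J.card) :
    ∃ e ∈ J, e ∉ I ∧ LinearIndepOn K w ((insert e I : Finset ι) : Set ι) := by
  classical
  by_contra hcon
  push Not at hcon
  have h1 : Set.range (fun i : (J : Set ι) => w i) ≤ Submodule.span K (w '' (I : Set ι)) := by
    rintro _ ⟨⟨e, he⟩, rfl⟩
    by_contra h2
    obtain ⟨h3, h4⟩ := (hI.notMem_span_iff (a := e)).1 h2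
    exact hcon e he h4 (by rw [Finset.coe_insert]; exact h3)
  have h2 := linearIndependent_le_span_aux' (fun i : (J : Set ι) => w i) hJ
    (w '' (I : Set ι)) h1
  have h3 : Fintype.card (J : Set ι) = J.card := by simp
  have h4 : Fintype.card (w '' (I : Set ι)) ≤ I.card := by
    rw [← Set.toFinset_card]
    have : (w '' (I : Set ι)).toFinset = I.image w := by ext; simp
    rw [this]
    exact Finset.card_image_le
  omega

/-- The independence system. -/
def IM : IndepMatroid (Fin 9) :=
  IndepMatroid.ofFinset Set.univ (fun I => LinearIndepOn (ZMod 2) v (I : Set (Fin 9)))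
    (by rw [Finset.coe_empty]; exact linearIndepOn_empty _ _)
    (fun _ _ hJ hIJ => hJ.mono (Finset.coe_subset.2 hIJ))
    (fun I J hI hJ hIJ => aug v I J hI hJ hIJ)
    (fun _ _ => Set.subset_univ _)

/-- The matroid. -/
def M : Matroid (Fin 9) := IM.matroid

theorem M_E : M.E = Set.univ := rfl

theorem M_indep (I : Finset (Fin 9)) :
    M.Indep (I : Set (Fin 9)) ↔ LinearIndepOn (ZMod 2) v (I : Set (Fin 9)) := by
  show IM.Indep _ ↔ _
  unfold IM
  rw [IndepMatroid.ofFinset_indep]

theorem card_le {I : Set (Fin 9)} (hI : M.Indep I) : I.encard ≤ 4 := by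
  classical
  have hf : (Set.toFinite I).toFinset = (Set.toFinite I).toFinset := rfl
  have h1 : M.Indep (((Set.toFinite I).toFinset : Finset (Fin 9)) : Set (Fin 9)) := by
    rw [Set.Finite.coe_toFinset]; exact hI
  rw [M_indep] at h1
  have h2 := LinearIndepOn.encard_le_toENat_rank h1
  rw [Set.Finite.coe_toFinset] at h2
  have h3 : Module.rank (ZMod 2) (Fin 4 → ZMod 2) = 4 := by
    rw [rank_fun']
    simp
  rw [h3] at h2
  simpa using h2

theorem base_of {B : Set (Fin 9)} (hB : M.Indep B) (hc : B.encard = 4) : M.IsBase B := by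
  rw [Matroid.isBase_iff_maximal_indep]
  refine ⟨hB, fun I hI hBI => ?_⟩
  have h1 := card_le hI
  rw [← hc] at h1
  exact ((Set.toFinite B).eq_of_subset_of_encard_le hBI h1).symm.subset

theorem ind4 (a b c d : Fin 9) (hab : a ≠ b) (hac : a ≠ c) (had : a ≠ d) (hbc : b ≠ c)
    (hbd : b ≠ d) (hcd : c ≠ d)
    (h : ∀ p q r s : ZMod 2, p • v a + (q • v b + (r • v c + s • v d)) = 0 →
      p = 0 ∧ q = 0 ∧ r = 0 ∧ s = 0) :
    M.IsBase {a, b, c, d} := by
  have e1 : ({a, b, c, d} : Set (Fin 9)) = (({a, b, c, d} : Finset (Fin 9)) : Set (Fin 9)) := by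
    simp
  apply base_of
  · rw [e1, M_indep, linearIndepOn_finset_iff]
    intro f hf i hi
    rw [Finset.sum_insert (by simp [hab, hac, had]), Finset.sum_insert (by simp [hbc, hbd]),
      Finset.sum_insert (by simp [hcd]), Finset.sum_singleton] at hf
    obtain ⟨h1, h2, h3, h4⟩ := h _ _ _ _ hf
    simp only [Finset.mem_insert, Finset.mem_singleton] at hi
    rcases hi with h | h | h | h <;> rw [h] <;> assumption
  · rw [e1, Set.encard_coe_eq_coe_finsetCard]
    rw [Finset.card_insert_of_notMem (by simp [hab, hac, had]),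
      Finset.card_insert_of_notMem (by simp [hbc, hbd]),
      Finset.card_insert_of_notMem (by simp [hcd]), Finset.card_singleton]
    rfl

theorem base0123 : M.IsBase {0, 1, 2, 3} :=
  ind4 0 1 2 3 (by decide) (by decide) (by decide) (by decide) (by decide) (by decide) (by decide)

theorem base4567 : M.IsBase {4, 5, 6, 7} :=
  ind4 4 5 6 7 (by decide) (by decide) (by decide) (by decide) (by decide) (by decide) (by decide)

theorem base0146 : M.IsBase {0, 1, 4, 6} :=
  ind4 0 1 4 6 (by decide) (by decide) (by decide) (by decide) (by decide) (by decide) (by decide)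

theorem base2358 : M.IsBase {2, 3, 5, 8} :=
  ind4 2 3 5 8 (by decide) (by decide) (by decide) (by decide) (by decide) (by decide) (by decide)

theorem key : ∀ a b c : Fin 9, a < 7 → b < 7 → c < 7 → a ≠ b → a ≠ c → b ≠ c →
    v a + (v b + v c) = ![1, 0, 0, 0] ∨
    (∃ p q r : ZMod 2, v 7 = p • v a + (q • v b + r • v c)) ∨
    (∃ p q r : ZMod 2, v 8 = p • v a + (q • v b + r • v c)) := by
  decide

theorem sumW : ∑ i ∈ ({0, 1, 2, 3, 4, 5, 6} : Finset (Fin 9)), v i = ![1, 0, 0, 0] := by
  decide

end Pool.Agent.Helper41.CB
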