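import Pool.Agent.Helper41.CB.Lin

/-!
# No base is common to a partition of `E - 7` and a partition of `E - 8` into two bases
-/

set_option autoImplicit false

namespace Pool.Agent.Helper41.CB

theorem comb_mem {a b c : Fin 9} {S : Set (Fin 9)} (ha : a ∈ S) (hb : b ∈ S) (hc : c ∈ S)
    (p q r : ZMod 2) :
    p • v a + (q • v b + r • v c) ∈ Submodule.span (ZMod 2) (v '' S) := by
  refine Submodule.add_mem _ (Submodule.smul_mem _ _ (Submodule.subset_span ⟨a, ha, rfl⟩))
    (Submodule.add_mem _ (Submodule.smul_mem _ _ (Submodule.subset_span ⟨b, hb, rfl⟩))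
      (Submodule.smul_mem _ _ (Submodule.subset_span ⟨c, hc, rfl⟩)))

theorem not_span {S : Finset (Fin 9)} {x : Fin 9} (hx : x ∉ S)
    (h : M.Indep ((insert x S : Finset (Fin 9)) : Set (Fin 9))) :
    v x ∉ Submodule.span (ZMod 2) (v '' (S : Set (Fin 9))) := by
  rw [M_indep] at h
  have h1 : LinearIndepOn (ZMod 2) v (S : Set (Fin 9)) :=
    h.mono (Finset.coe_subset.2 (Finset.subset_insert _ _))
  rw [h1.notMem_span_iff]
  refine ⟨?_, fun h2 => hx h2⟩
  rw [Finset.coe_insert] at h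
  exact h

theorem no_common {Z P Q : Set (Fin 9)} (hZ : M.IsBase Z) (hP : M.IsBase P) (hQ : M.IsBase Q)
    (h1 : Z ∪ P = Set.univ \ {7}) (h2 : Disjoint Z P) (h3 : Z ∪ Q = Set.univ \ {8})
    (h4 : Disjoint Z Q) : False := by
  classical
  obtain ⟨Zf, rfl⟩ : ∃ Zf : Finset (Fin 9), (Zf : Set (Fin 9)) = Z :=
    ⟨(Set.toFinite Z).toFinset, Set.Finite.coe_toFinset _⟩
  have hr : M.eRank = 4 := by
    rw [← base0123.encard_eq_eRank]
    have e1 : ({0, 1, 2, 3} : Set (Fin 9)) = (({0, 1, 2, 3} : Finset (Fin 9)) : Set (Fin 9)) := by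
      simp
    rw [e1, Set.encard_coe_eq_coe_finsetCard]
    rfl
  have hcard : Zf.card = 4 := by
    have := hZ.encard_eq_eRank
    rw [hr, Set.encard_coe_eq_coe_finsetCard] at this
    exact_mod_cast this
  have hZ7 : (7 : Fin 9) ∉ Zf := by
    intro h
    have : (7 : Fin 9) ∈ Set.univ \ ({7} : Set (Fin 9)) := by
      rw [← h1]; exact Or.inl h
    exact this.2 rfl
  have hZ8 : (8 : Fin 9) ∉ Zf := by
    intro h
    have : (8 : Fin 9) ∈ Set.univ \ ({8} : Set (Fin 9)) := by
      rw [← h3]; exact Or.inl h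
    exact this.2 rfl
  have hW : ∀ i : Fin 9, i ∈ ({0, 1, 2, 3, 4, 5, 6} : Finset (Fin 9)) ↔ i ≠ 7 ∧ i ≠ 8 := by
    decide
  have hWlt : ∀ i : Fin 9, i ∈ ({0, 1, 2, 3, 4, 5, 6} : Finset (Fin 9)) → i < 7 := by
    decide
  have hsub : Zf ⊆ ({0, 1, 2, 3, 4, 5, 6} : Finset (Fin 9)) := by
    intro i hi
    rw [hW]
    exact ⟨fun h => hZ7 (h ▸ hi), fun h => hZ8 (h ▸ hi)⟩
  have hIc : (({0, 1, 2, 3, 4, 5, 6} : Finset (Fin 9)) \ Zf).card = 3 := by
    rw [Finset.card_sdiff_of_subset hsub, hcard]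
    rfl
  set I : Finset (Fin 9) := ({0, 1, 2, 3, 4, 5, 6} : Finset (Fin 9)) \ Zf with hI
  have hmI : ∀ i, i ∈ I ↔ (i ≠ 7 ∧ i ≠ 8) ∧ i ∉ Zf := by
    intro i
    rw [hI, Finset.mem_sdiff, hW]
  have hP' : P = ((insert 8 I : Finset (Fin 9)) : Set (Fin 9)) := by
    ext i
    rw [Finset.mem_coe, Finset.mem_insert, hmI]
    constructor
    · intro hi
      have h5 : i ∈ Set.univ \ ({7} : Set (Fin 9)) := by rw [← h1]; exact Or.inr hi
      have h6 : i ∉ Zf := fun h => (Set.disjoint_left.1 h2) h hi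
      by_cases h7 : i = 8
      · exact Or.inl h7
      · exact Or.inr ⟨⟨fun h => h5.2 h, h7⟩, h6⟩
    · intro hi
      have h5 : i ∈ (Zf : Set (Fin 9)) ∪ P := by
        rw [h1]
        refine ⟨Set.mem_univ _, ?_⟩
        rcases hi with h | h
        · rw [h]; decide
        · exact h.1.1
      rcases h5 with h5 | h5
      · rcases hi with h | h
        · exact absurd (h ▸ h5) hZ8
        · exact absurd h5 h.2
      · exact h5
  have hQ' : Q = ((insert 7 I : Finset (Fin 9)) : Set (Fin 9)) := by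
    ext i
    rw [Finset.mem_coe, Finset.mem_insert, hmI]
    constructor
    · intro hi
      have h5 : i ∈ Set.univ \ ({8} : Set (Fin 9)) := by rw [← h3]; exact Or.inr hi
      have h6 : i ∉ Zf := fun h => (Set.disjoint_left.1 h4) h hi
      by_cases h7 : i = 7
      · exact Or.inl h7
      · exact Or.inr ⟨⟨h7, fun h => h5.2 h⟩, h6⟩
    · intro hi
      have h5 : i ∈ (Zf : Set (Fin 9)) ∪ Q := by
        rw [h3]
        refine ⟨Set.mem_univ _, ?_⟩
        rcases hi with h | h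
        · rw [h]; decide
        · exact h.1.2
      rcases h5 with h5 | h5
      · rcases hi with h | h
        · exact absurd (h ▸ h5) hZ7
        · exact absurd h5 h.2
      · exact h5
  have h7I : (7 : Fin 9) ∉ I := fun h => ((hmI 7).1 h).1.1 rfl
  have h8I : (8 : Fin 9) ∉ I := fun h => ((hmI 8).1 h).1.2 rfl
  have hn7 := not_span h7I (by rw [← hQ']; exact hQ.indep)
  have hn8 := not_span h8I (by rw [← hP']; exact hP.indep)
  obtain ⟨a, b, c, hab, hac, hbc, habc⟩ := Finset.card_eq_three.1 hIc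
  have haI : a ∈ I := by rw [habc]; simp
  have hbI : b ∈ I := by rw [habc]; simp
  have hcI : c ∈ I := by rw [habc]; simp
  have hlt : ∀ i ∈ I, i < 7 := fun i hi => hWlt i (Finset.mem_sdiff.1 hi).1
  rcases key a b c (hlt a haI) (hlt b hbI) (hlt c hcI) hab hac hbc with h | ⟨p, q, r, h⟩ |
    ⟨p, q, r, h⟩
  · have h5 : ∑ i ∈ I, v i = ![1, 0, 0, 0] := by
      rw [habc, Finset.sum_insert (by simp [hab, hac]), Finset.sum_insert (by simp [hbc]),
        Finset.sum_singleton]
      exact h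
    have h6 := Finset.sum_sdiff (f := v) hsub
    rw [sumW] at h6
    have h7 : ∑ i ∈ Zf, v i = 0 := by
      have h8 : ∑ i ∈ I, v i + ∑ i ∈ Zf, v i = ![1, 0, 0, 0] := h6
      rw [h5] at h8
      exact left_eq_add.1 h8.symm
    have h9 := (M_indep Zf).1 hZ.indep
    rw [linearIndepOn_finset_iff] at h9
    have hne : Zf.Nonempty := by
      rw [← Finset.card_pos, hcard]
      exact Nat.succ_pos 3
    obtain ⟨i, hi⟩ := hne
    have := h9 (fun _ => 1) (by simpa using h7) i hi
    exact one_ne_zero this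
  · apply hn7
    rw [h]
    exact comb_mem (Finset.mem_coe.2 haI) (Finset.mem_coe.2 hbI) (Finset.mem_coe.2 hcI) p q r
  · apply hn8
    rw [h]
    exact comb_mem (Finset.mem_coe.2 haI) (Finset.mem_coe.2 hbI) (Finset.mem_coe.2 hcI) p q r

theorem disj_of {A B : Finset (Fin 9)} (h : Disjoint A B) :
    Disjoint (A : Set (Fin 9)) (B : Set (Fin 9)) := Finset.disjoint_coe.2 h

theorem two_parts {A B C : Set (Fin 9)} (hA : M.IsBase A) (hB : M.IsBase B) (hAB : Disjoint A B)
    (hC : A ∪ B = C) :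
    ∃ D : Fin 2 → Set (Fin 9), (∀ i, M.IsBase (D i)) ∧
      (∀ i j, i ≠ j → Disjoint (D i) (D j)) ∧ (⋃ i, D i) = C := by
  refine ⟨![A, B], ?_, ?_, ?_⟩
  · intro i
    fin_cases i
    · exact hA
    · exact hB
  · intro i j hij
    fin_cases i <;> fin_cases j
    · exact absurd rfl hij
    · exact hAB
    · exact hAB.symm
    · exact absurd rfl hij
  · rw [← hC]
    ext a
    simp [Fin.exists_fin_two]

theorem ex7 : ∃ D : Fin 2 → Set (Fin 9), (∀ i, M.IsBase (D i)) ∧
    (∀ i j, i ≠ j → Disjoint (D i) (D j)) ∧ (⋃ i, D i) = M.E \ {7} := by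
  refine two_parts base0146 base2358 ?_ ?_
  · rw [Set.disjoint_left]
    decide
  · ext a
    simp only [M_E, Set.mem_union, Set.mem_sdiff, Set.mem_univ, true_and]
    revert a
    decide

theorem ex8 : ∃ D : Fin 2 → Set (Fin 9), (∀ i, M.IsBase (D i)) ∧
    (∀ i j, i ≠ j → Disjoint (D i) (D j)) ∧ (⋃ i, D i) = M.E \ {8} := by
  refine two_parts base0123 base4567 ?_ ?_
  · rw [Set.disjoint_left]
    decide
  · ext a
    simp only [M_E, Set.mem_union, Set.mem_sdiff, Set.mem_univ, true_and]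
    revert a
    decide

end Pool.Agent.Helper41.CB
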